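import Pool.Agent.H68.GCL.Targets

/-!
Row SMA of gcl_modules (helper20): small model property for containment of Regular Queries.
-/

namespace Pool.Agent.H20.GCL

open Pool.Agent.H76.SW Pool.Agent.H68.GCL

theorem sma_size {A : Type} {r : ℕ} (Γ : Query A r) (t : CRQ A r) (h : t ∈ Γ) :
    t.size ≤ Query.size Γ := by
  unfold Query.size
  exact List.single_le_sum (fun x _ => Nat.zero_le x) _ (List.mem_map.2 ⟨t, h, rfl⟩)

theorem pf_SMA (h1 : T_SHC) (h2 : T_INV) (h3 : T_NOD) (h4 : T_TNC) (h5 : T_SZB) (h6 : T_CRD)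
    (h7 : T_CAN) (h8 : U_s8_hom) (h9 : U_q6_mono) : T_SMA := by
  intro A _ r Γ Δ hyp V _ E z hΓ
  obtain ⟨t, htΓ, ht⟩ := hΓ
  rcases Nat.eq_zero_or_pos t.b.n with hn | hn
  · -- no variables
    have hmono := h9 (fun (u : Fin 0) (_ : A) (_ : Fin 0) => (u.elim0 : Prop)) E
      (fun u : Fin 0 => (u.elim0 : V)) (fun u => u.elim0)
    have hsat : t.Sat (fun (u : Fin 0) (_ : A) (_ : Fin 0) => (u.elim0 : Prop))
        (fun i => Fin.cast hn (t.out i)) := by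
      refine ⟨fun v => Fin.cast hn v, fun i => ?_, fun i => rfl⟩
      exact (Fin.cast hn (t.b.src i)).elim0
    obtain ⟨t', ht', hs'⟩ := hyp (Fin 0) (by rw [Nat.card_eq_fintype_card]; simp)
      (fun (u : Fin 0) (_ : A) (_ : Fin 0) => (u.elim0 : Prop))
      (fun i => Fin.cast hn (t.out i)) ⟨t, htΓ, hsat⟩
    refine ⟨t', ht', ?_⟩
    have h10 := hmono.2 r t' _ hs'
    have h11 : (fun i => ((Fin.cast hn (t.out i)).elim0 : V)) = z := by
      funext i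
      exact (Fin.cast hn (t.out i)).elim0
    rw [← h11]
    exact h10
  · obtain ⟨ch0, ch, ⟨μ, hμ, hμz⟩, htt, hsz, hsat⟩ := h1 (3 * Query.size Δ) t V E z ht
    have hcrd := h6 (Term.node t.b.n t.b.m t.b.src t.b.tgt ch ⟨0, hn⟩ ⟨0, hn⟩)
    have hszT : sz (Term.node t.b.n t.b.m t.b.src t.b.tgt ch ⟨0, hn⟩ ⟨0, hn⟩) =
        t.b.n + ∑ i, sz (ch i) := rfl
    have hν : Nat.card (Ty A Bool (3 * Query.size Δ) 0) =
        nT (Nat.card A) 2 (3 * Query.size Δ) 0 := by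
      have h10 := (h4 A Bool (3 * Query.size Δ) 0).2
      rwa [Nat.card_eq_fintype_card (α := Bool), Fintype.card_bool] at h10
    have hcard : Nat.card (Cv (Term.node t.b.n t.b.m t.b.src t.b.tgt ch ⟨0, hn⟩ ⟨0, hn⟩).stp) ≤
        SMB (Nat.card A) (Query.size Γ) (Query.size Δ) := by
      refine hcrd.2.trans ?_
      rw [hszT]
      refine hsz.trans ((h5 (A := A) _).2 r t |>.trans ?_)
      unfold SMB
      rw [hν]
      exact Nat.pow_le_pow_right (by omega) ((sma_size Γ t htΓ).trans (Nat.le_succ _))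
    haveI := hcrd.1
    have htD : t.Sat (canon (Term.node t.b.n t.b.m t.b.src t.b.tgt ch ⟨0, hn⟩ ⟨0, hn⟩).stp)
        (fun j => cl (Term.node t.b.n t.b.m t.b.src t.b.tgt ch ⟨0, hn⟩ ⟨0, hn⟩).stp
          (Sum.inl (t.out j))) :=
      hsat _ _ (fun v => cl (Term.node t.b.n t.b.m t.b.src t.b.tgt ch ⟨0, hn⟩ ⟨0, hn⟩).stp
        (Sum.inl v)) (fun i => h7 t.b.src t.b.tgt ch ⟨0, hn⟩ ⟨0, hn⟩ i)
    have hΔD := hyp _ hcard _ _ ⟨t, htΓ, htD⟩
    have htop := (h3 (3 * Query.size Δ) t.b.src t.b.tgt ch ch0 htt).2 r ⟨0, hn⟩ t.out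
    have hΔ0 := h2.2 _
      (canon (Term.node t.b.n t.b.m t.b.src t.b.tgt ch0 ⟨0, hn⟩ ⟨0, hn⟩).stp) Δ _
      (fun j => cl (Term.node t.b.n t.b.m t.b.src t.b.tgt ch0 ⟨0, hn⟩ ⟨0, hn⟩).stp
        (Sum.inl (t.out j))) htop hΔD
    obtain ⟨φ, hφ1, hφ2⟩ := h8 t.b.src t.b.tgt ch0 ⟨0, hn⟩ ⟨0, hn⟩ E μ hμ
    obtain ⟨t', ht', hs'⟩ := hΔ0
    refine ⟨t', ht', ?_⟩
    have h10 := (h9 _ E φ hφ2).2 r t' _ hs'
    have h11 : (fun j => φ (cl (Term.node t.b.n t.b.m t.b.src t.b.tgt ch0 ⟨0, hn⟩ ⟨0, hn⟩).stp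
        (Sum.inl (t.out j)))) = z := by
      funext j
      rw [hφ1]
      exact hμz j
    rw [← h11]
    exact h10

end Pool.Agent.H20.GCL
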